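import Mathlib
import Pool.Agent.H892.KT.Stm

/-!
# Kato surfaces: all homogeneous terms are realized (helper297 for helper892)
-/

set_option autoImplicit false

open Filter Topology Set

namespace Pool.Agent.H297.KT

open Pool.Agent.H892.KT

theorem hp_add (k : ℕ) (c c' : ℕ → ℂ) (y : ℂ × ℂ) :
    hp k c y + hp k c' y = hp k (fun j => c j + c' j) y := by
  unfold hp
  rw [← Finset.sum_add_distrib]
  exact Finset.sum_congr rfl fun j _ => by ring

theorem hp_smul (k : ℕ) (m : ℂ) (c : ℕ → ℂ) (y : ℂ × ℂ) :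
    m * hp k c y = hp k (fun j => m * c j) y := by
  unfold hp
  rw [Finset.mul_sum]
  exact Finset.sum_congr rfl fun j _ => by ring

theorem hp_hom (k : ℕ) (nu : ℂ) (c : ℕ → ℂ) (y : ℂ × ℂ) :
    hp k c (nu • y) = nu ^ k * hp k c y := by
  unfold hp
  rw [Finset.mul_sum]
  refine Finset.sum_congr rfl fun j hj => ?_
  have hj' : j ≤ k := Nat.lt_succ_iff.1 (Finset.mem_range.1 hj)
  have h1 : nu ^ k = nu ^ j * nu ^ (k - j) := by
    rw [← pow_add, Nat.add_sub_cancel' hj']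
  rw [Prod.smul_fst, Prod.smul_snd, smul_eq_mul, smul_eq_mul, mul_pow, mul_pow, h1]
  ring

theorem hp_zero (k : ℕ) (y : ℂ × ℂ) : hp k (fun _ => 0) y = 0 := by
  unfold hp
  exact Finset.sum_eq_zero fun j _ => by ring

/-- `y.1 (y.2 - s y.1)^n` -/
theorem form1 (n : ℕ) (s : ℂ) (y : ℂ × ℂ) : y.1 * (y.2 - s * y.1) ^ n =
    hp (n + 1) (fun j => if j = 0 then 0 else (n.choose (j - 1) : ℂ) * (-s) ^ (j - 1)) y := by
  have h1 : y.2 - s * y.1 = -s * y.1 + y.2 := by ring
  unfold hp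
  rw [Finset.sum_range_succ', h1, add_pow, Finset.mul_sum]
  simp only [if_true, zero_mul, add_zero, Nat.add_sub_cancel, Nat.succ_ne_zero, if_false,
    Nat.add_sub_add_right]
  refine Finset.sum_congr rfl fun j _ => ?_
  rw [mul_pow]
  ring

/-- `y.2 (y.2 - s y.1)^n` -/
theorem form2 (n : ℕ) (s : ℂ) (y : ℂ × ℂ) : y.2 * (y.2 - s * y.1) ^ n =
    hp (n + 1) (fun j => (n.choose j : ℂ) * (-s) ^ j) y := by
  have h1 : y.2 - s * y.1 = -s * y.1 + y.2 := by ring
  unfold hp
  beta_reduce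
  rw [Finset.sum_range_succ, h1, add_pow, Finset.mul_sum, Nat.choose_eq_zero_of_lt (Nat.lt_succ_self n)]
  rw [Nat.cast_zero, zero_mul, zero_mul, zero_mul, add_zero]
  refine Finset.sum_congr rfl fun j hj => ?_
  have hj' : j ≤ n := Nat.lt_succ_iff.1 (Finset.mem_range.1 hj)
  rw [mul_pow, Nat.succ_sub hj', pow_succ]
  ring

theorem form3 (n : ℕ) (l : ℂ) (y : ℂ × ℂ) :
    l * y.2 ^ (n + 1) = hp (n + 1) (fun j => if j = 0 then l else 0) y := by
  unfold hp
  rw [Finset.sum_eq_single 0]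
  · simp
  · intro j _ hj
    beta_reduce
    rw [if_neg hj]
    ring
  · intro h
    exact absurd (Finset.mem_range.2 (Nat.succ_pos _)) h

theorem form4 (n : ℕ) (l : ℂ) (y : ℂ × ℂ) :
    l * (y.1 * y.2 ^ n) = hp (n + 1) (fun j => if j = 1 then l else 0) y := by
  unfold hp
  rw [Finset.sum_eq_single 1]
  · simp [mul_assoc]
  · intro j _ hj
    beta_reduce
    rw [if_neg hj]
    ring
  · intro h
    exact absurd (Finset.mem_range.2 (by omega)) h

/-- the linear map `y ↦ (y.1, y.2 - s y.1)` -/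
def shear (s : ℂ) : (ℂ × ℂ) ≃ₗ[ℂ] (ℂ × ℂ) where
  toFun y := (y.1, y.2 - s * y.1)
  invFun z := (z.1, z.2 + s * z.1)
  map_add' x y := by
    ext
    · rfl
    · show (x + y).2 - s * (x + y).1 = (x.2 - s * x.1) + (y.2 - s * y.1)
      rw [Prod.fst_add, Prod.snd_add]
      ring
  map_smul' m y := by
    ext
    · rfl
    · show (m • y).2 - s * (m • y).1 = m * (y.2 - s * y.1)
      rw [Prod.smul_fst, Prod.smul_snd, smul_eq_mul, smul_eq_mul]
      ring
  left_inv y := by
    ext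
    · rfl
    · show y.2 - s * y.1 + s * y.1 = y.2
      ring
  right_inv y := by
    ext
    · rfl
    · show y.2 + s * y.1 - s * y.1 = y.2
      ring

/-- the continuous version -/
noncomputable def sh (s : ℂ) : (ℂ × ℂ) ≃L[ℂ] (ℂ × ℂ) := (shear s).toContinuousLinearEquiv

theorem sh_apply (s : ℂ) (y : ℂ × ℂ) : sh s y = (y.1, y.2 - s * y.1) := rfl

theorem sh_symm_apply (s : ℂ) (y : ℂ × ℂ) : (sh s).symm y = (y.1, y.2 + s * y.1) := rfl

/-- the homothety -/
noncomputable def ho (nu : ℂ) (h : nu ≠ 0) : (ℂ × ℂ) ≃L[ℂ] (ℂ × ℂ) :=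
  (LinearEquiv.smulOfNeZero ℂ (ℂ × ℂ) nu h).toContinuousLinearEquiv

theorem ho_apply (nu : ℂ) (h : nu ≠ 0) (y : ℂ × ℂ) : ho nu h y = nu • y := rfl

theorem ho_symm_apply (nu : ℂ) (h : nu ≠ 0) (y : ℂ × ℂ) : (ho nu h).symm y = nu⁻¹ • y := by
  rw [ContinuousLinearEquiv.symm_apply_eq, ho_apply, smul_inv_smul₀ h]

/-- the submodule of the realized terms -/
def SS (h1 : S_JADD) (h2 : S_JLIN) (h3 : S_JSH) (k : ℕ) (hk : 2 ≤ k) :
    Submodule ℂ (ℂ × ℂ → ℂ × ℂ) where
  carrier := {h | (∃ c d, h = hm k c d) ∧ InG k h}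
  add_mem' := by
    rintro h h' ⟨⟨c, d, rfl⟩, hG⟩ ⟨⟨c', d', rfl⟩, hG'⟩
    refine ⟨⟨fun j => c j + c' j, fun j => d j + d' j, ?_⟩, h1 k c d c' d' hk hG hG'⟩
    funext y
    show (hp k c y, hp k d y) + (hp k c' y, hp k d' y) = (hp k _ y, hp k _ y)
    rw [Prod.mk_add_mk, hp_add, hp_add]
  zero_mem' := by
    refine ⟨⟨fun _ => 0, fun _ => 0, ?_⟩, ?_⟩
    · funext y
      show (0, 0) = (hp k _ y, hp k _ y)
      rw [hp_zero]
    · have h := (h3 k hk 0).1
      have e : (fun y : ℂ × ℂ => ((0 : ℂ) * y.2 ^ k, (0 : ℂ))) = 0 := by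
        funext y
        rw [zero_mul]
        rfl
      rwa [e] at h
  smul_mem' := by
    rintro m h ⟨⟨c, d, rfl⟩, hG⟩
    refine ⟨⟨fun j => m * c j, fun j => m * d j, ?_⟩, ?_⟩
    · funext y
      show (m * hp k c y, m * hp k d y) = (hp k _ y, hp k _ y)
      rw [hp_smul, hp_smul]
    · rcases eq_or_ne m 0 with rfl | hm0
      · have h := (h3 k hk 0).1
        have e : (fun y : ℂ × ℂ => ((0 : ℂ) * y.2 ^ k, (0 : ℂ))) = (0 : ℂ) • hm k c d := by
          funext y
          rw [zero_mul, zero_smul]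
          rfl
        rwa [e] at h
      · obtain ⟨nu, hnu⟩ := IsAlgClosed.exists_pow_nat_eq m (n := k - 1) (by omega)
        have hnu0 : nu ≠ 0 := by
          rintro rfl
          rw [zero_pow (by omega)] at hnu
          exact hm0 hnu.symm
        have h := h2 k (hm k c d) (ho nu hnu0) hG
        have e : (fun y : ℂ × ℂ => (ho nu hnu0).symm (hm k c d (ho nu hnu0 y))) =
            m • hm k c d := by
          funext y
          rw [ho_symm_apply, ho_apply]
          show nu⁻¹ • (hp k c (nu • y), hp k d (nu • y)) = m • (hp k c y, hp k d y)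
          have hk' : nu ^ k = nu * m := by
            rw [← hnu, ← pow_succ']
            congr 1
            omega
          rw [hp_hom, hp_hom, hk', Prod.smul_mk, Prod.smul_mk, smul_eq_mul, smul_eq_mul,
            smul_eq_mul, smul_eq_mul, mul_assoc nu, mul_assoc nu, inv_mul_cancel_left₀ hnu0,
            inv_mul_cancel_left₀ hnu0]
        rwa [e] at h

theorem t_JALL (h1 : S_JADD) (h2 : S_JLIN) (h3 : S_JSH) (h4 : S_JSPAN) : S_JALL := by
  intro k c d hk
  obtain ⟨n, rfl⟩ : ∃ n, k = n + 1 := ⟨k - 1, by omega⟩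
  refine (h4 (n + 1) (SS h1 h2 h3 (n + 1) hk) (by omega) ?_ ?_ c d).2
  · intro s
    rw [Nat.add_sub_cancel]
    refine ⟨⟨fun j => if j = 0 then 0 else (n.choose (j - 1) : ℂ) * (-s) ^ (j - 1),
      fun j => s * (if j = 0 then 0 else (n.choose (j - 1) : ℂ) * (-s) ^ (j - 1)), ?_⟩, ?_⟩
    · funext y
      show (_, _) = (hp (n + 1) _ y, hp (n + 1) _ y)
      rw [← hp_smul, ← form1]
    · have h := h2 (n + 1) _ (sh s) (h3 (n + 1) hk 1).2
      have e : (fun y : ℂ × ℂ => (sh s).symm ((fun y : ℂ × ℂ =>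
          ((1 : ℂ) * (y.1 * y.2 ^ (n + 1 - 1)), (0 : ℂ))) (sh s y))) =
          fun y : ℂ × ℂ => (y.1 * (y.2 - s * y.1) ^ n, s * (y.1 * (y.2 - s * y.1) ^ n)) := by
        funext y
        rw [sh_apply, sh_symm_apply, Nat.add_sub_cancel]
        ext
        · show 1 * (y.1 * (y.2 - s * y.1) ^ n) = y.1 * (y.2 - s * y.1) ^ n
          ring
        · show 0 + s * (1 * (y.1 * (y.2 - s * y.1) ^ n)) = s * (y.1 * (y.2 - s * y.1) ^ n)
          ring
      rwa [e] at h
  · intro s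
    rw [Nat.add_sub_cancel]
    refine ⟨⟨fun j => (n.choose j : ℂ) * (-s) ^ j, fun j => s * ((n.choose j : ℂ) * (-s) ^ j),
      ?_⟩, ?_⟩
    · funext y
      show (_, _) = (hp (n + 1) _ y, hp (n + 1) _ y)
      rw [← hp_smul, ← form2]
    · have g1 := (h3 (n + 1) hk 1).1
      have g2 := (h3 (n + 1) hk s).2
      have e1 : (fun y : ℂ × ℂ => ((1 : ℂ) * y.2 ^ (n + 1), (0 : ℂ))) =
          hm (n + 1) (fun j => if j = 0 then 1 else 0) (fun _ => 0) := by
        funext y
        show (_, _) = (hp (n + 1) _ y, hp (n + 1) _ y)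
        rw [← form3, hp_zero]
      have e2 : (fun y : ℂ × ℂ => (s * (y.1 * y.2 ^ (n + 1 - 1)), (0 : ℂ))) =
          hm (n + 1) (fun j => if j = 1 then s else 0) (fun _ => 0) := by
        funext y
        show (_, _) = (hp (n + 1) _ y, hp (n + 1) _ y)
        rw [← form4, hp_zero, Nat.add_sub_cancel]
      rw [e1] at g1
      rw [e2] at g2
      have g3 := h1 (n + 1) _ _ _ _ hk g1 g2
      have h := h2 (n + 1) _ (sh s) g3
      have e : (fun y : ℂ × ℂ => (sh s).symm ((fun y : ℂ × ℂ =>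
          hm (n + 1) (fun j => if j = 0 then 1 else 0) (fun _ => 0) y +
            hm (n + 1) (fun j => if j = 1 then s else 0) (fun _ => 0) y) (sh s y))) =
          fun y : ℂ × ℂ => (y.2 * (y.2 - s * y.1) ^ n, s * (y.2 * (y.2 - s * y.1) ^ n)) := by
        funext y
        rw [← e1, ← e2, sh_apply, sh_symm_apply, Nat.add_sub_cancel]
        ext
        · show 1 * (y.2 - s * y.1) ^ (n + 1) + s * (y.1 * (y.2 - s * y.1) ^ n) =
            y.2 * (y.2 - s * y.1) ^ n
          rw [pow_succ]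
          ring
        · show 0 + 0 + s * (1 * (y.2 - s * y.1) ^ (n + 1) + s * (y.1 * (y.2 - s * y.1) ^ n)) =
            s * (y.2 * (y.2 - s * y.1) ^ n)
          rw [pow_succ]
          ring
      rwa [e] at h

end Pool.Agent.H297.KT
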